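import Mathlib
import Pool.Agent.HuaDom91.Iso

/-!
A subspace stable under its units belongs to a perfect pair.
-/

set_option autoImplicit false

namespace Pool.Agent.HuaGam96

open Pool.Agent.HuaTop84 Pool.Agent.HuaVal Pool.Agent.HuaOne84 Pool.Agent.HuaDom91

variable {A : Type} [AddCommGroup A] {K : Type} [Field K] [Module K A] {H : HS A}

/-- `P` does not contain the unit, and it is stable under `U u` whenever `u` and `u⁻¹` are not
in `P`. -/
structure Stab (H : HS A) (P : Submodule K A) : Prop where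
  one : H.one ∉ P
  st : ∀ u, u ∉ P → H.inv u ∉ P → ∀ x ∈ P, H.U u x ∈ P

/-- The units of `P`. -/
def Un (H : HS A) (P : Submodule K A) (u : A) : Prop := u ∉ P ∧ H.inv u ∉ P

theorem Un.ne {P : Submodule K A} {u : A} (h : Un H P u) : u ≠ 0 :=
  fun h0 => h.1 (h0 ▸ P.zero_mem)

theorem Un.inv {P : Submodule K A} {u : A} (h : Un H P u) : Un H P (H.inv u) :=
  ⟨h.2, by rw [H.inv_inv]; exact h.1⟩

theorem Un.smul (S : H.Scal K) {P : Submodule K A} {u : A} (h : Un H P u) {t : K} (ht : t ≠ 0) :
    Un H P (t • u) :=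
  ⟨fun h0 => h.1 ((P.smul_mem_iff ht).1 h0), fun h0 => h.2 (by
    rw [S.inv_smul t u ht] at h0
    exact (P.smul_mem_iff (inv_ne_zero ht)).1 h0)⟩

namespace Stab

variable {P : Submodule K A} (h : Stab H P)

include h

theorem un_one : Un H P H.one := ⟨h.one, by rw [H.inv_one]; exact h.one⟩

theorem map_mem_iff {u x : A} (hu : Un H P u) : H.U u x ∈ P ↔ x ∈ P := by
  constructor
  · intro h1
    have h2 := h.st _ hu.inv.1 hu.inv.2 _ h1
    rwa [H.U_inv_left u x hu.ne] at h2
  · exact fun h1 => h.st u hu.1 hu.2 x h1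

theorem iso {b : A} (hb : Un H P b) : Stab (iso H b hb.ne) P where
  one := hb.1
  st := fun u hu hu' x hx => by
    change H.U u (H.U (H.inv b) x) ∈ P
    have hu2 : H.inv u ∉ P := fun h1 => hu' (by
      change H.U b (H.inv u) ∈ P
      exact (h.map_mem_iff hb).2 h1)
    rw [h.map_mem_iff ⟨hu, hu2⟩, h.map_mem_iff hb.inv]
    exact hx

theorem un_iso {b u : A} (hb : Un H P b) : Un (HuaDom91.iso H b hb.ne) P u ↔ Un H P u := by
  change u ∉ P ∧ H.U b (H.inv u) ∉ P ↔ _
  rw [h.map_mem_iff hb]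
  rfl

/-- Two units whose sum `w` has its inverse in `P` are congruent modulo `P`. -/
theorem congr {w u : A} (hw : w ∉ P) (hw' : H.inv w ∈ P) (hu : Un H P u)
    (hx : Un H P (w - u)) : w - (u + u) ∈ P := by
  have hw0 : w ≠ 0 := fun h0 => hw (h0 ▸ P.zero_mem)
  have h1 := (h.map_mem_iff hx).2 hw'
  have h2 := (h.map_mem_iff hu).2 hw'
  have h3 := U_shift H (-u) hw0
  rw [H.U_neg, neg_add_eq_sub] at h3
  rw [h3] at h1
  have h4 := P.sub_mem h1 h2
  have e : H.U u (H.inv w) + (-u + -u + w) - H.U u (H.inv w) = w - (u + u) := by abel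
  rwa [e] at h4

/-- An element outside `P` whose inverse is in `P` is not a sum of two units. -/
theorem not_sum [Infinite K] (S : H.Scal K) (h2K : (2 : K) ≠ 0) {w u : A} (hw : w ∉ P)
    (hw' : H.inv w ∈ P) (hu : Un H P u) (hx : Un H P (w - u)) : False := by
  classical
  obtain ⟨c, hc⟩ := Infinite.exists_notMem_finset ({0, 1, -1} : Finset K)
  simp only [Finset.mem_insert, Finset.mem_singleton, not_or] at hc
  obtain ⟨hc0, hc1, hc2⟩ := hc
  have h1 := h.congr hw hw' hu hx
  -- `x - c u` is not in `P`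
  have h2 : w - u - c • u ∉ P := by
    intro h3
    have h4 := P.sub_mem h3 h1
    have e : w - u - c • u - (w - (u + u)) = (1 - c) • u := by rw [sub_smul, one_smul]; abel
    rw [e, P.smul_mem_iff (sub_ne_zero.mpr (Ne.symm hc1))] at h4
    exact hu.1 h4
  by_cases h3 : H.inv (w - u - c • u) ∈ P
  · -- use `x` and `-c u`
    have h4 := h.congr h2 h3 hx (by
      have e : w - u - c • u - (w - u) = (-c) • u := by rw [neg_smul]; abel
      rw [e]
      exact hu.smul S (neg_ne_zero.mpr hc0))
    have h5 := P.add_mem h4 h1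
    have e : w - u - c • u - (w - u + (w - u)) + (w - (u + u)) = (-(1 + c)) • u := by
      rw [neg_smul, add_smul, one_smul]; abel
    rw [e, P.smul_mem_iff (neg_ne_zero.mpr (fun h0 => hc2 (by
      rw [add_comm] at h0
      exact eq_neg_of_add_eq_zero_left h0)))] at h5
    exact hu.1 h5
  · have hu' : Un H P ((1 + c) • u) := hu.smul S (fun h0 => hc2 (by
      rw [add_comm] at h0
      exact eq_neg_of_add_eq_zero_left h0))
    have h4 := h.congr hw hw' hu' (by
      have e : w - (1 + c) • u = w - u - c • u := by rw [add_smul, one_smul]; abel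
      rw [e]
      exact ⟨h2, h3⟩)
    have h5 := P.sub_mem h1 h4
    have e : w - (u + u) - (w - ((1 + c) • u + (1 + c) • u)) = (2 * c) • u := by
      rw [two_mul, add_smul, add_smul, one_smul]; abel
    rw [e, P.smul_mem_iff (mul_ne_zero h2K hc0)] at h5
    exact hu.1 h5

/-- There is no `t` with `t` and `t⁻¹` in `P`. -/
theorem inv_notMem (S : H.Scal K) (h2K : (2 : K) ≠ 0) {t : A} (ht : t ∈ P) (ht0 : t ≠ 0) :
    H.inv t ∉ P := by
  intro ht'
  -- `(1 - t)⁻¹ ∈ P`
  have key : ∀ t, t ∈ P → t ≠ 0 → H.inv t ∈ P → H.inv (H.one - t) ∈ P := by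
    intro t ht ht0 ht'
    by_contra h1
    have h2 : H.one - t ∉ P := fun h3 => h.one (by
      have := P.add_mem h3 ht
      rwa [sub_add_cancel] at this)
    have h3 := (h.map_mem_iff ⟨h2, h1⟩).2 ht'
    have hmt : -t ≠ 0 := neg_ne_zero.mpr ht0
    have h4 := U_shift H H.one hmt
    rw [H.U_one, H.inv_neg, map_neg, ← sub_eq_add_neg] at h4
    rw [← neg_inj, neg_neg] at h4
    rw [h4] at h3
    have h5 := P.add_mem (P.sub_mem h3 ht') ht
    have h6 := P.neg_mem (P.sub_mem h5 (P.add_mem ht ht))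
    have e : -(-(-H.inv t + (H.one + H.one + -t)) - H.inv t + t - (t + t)) =
      (2 : K) • H.one := by rw [two_smul]; abel
    rw [e, P.smul_mem_iff h2K] at h6
    exact h.one h6
  have h1 := key t ht ht0 ht'
  have h2 := key _ ht' (H.inv_ne t ht0) (by rw [H.inv_inv]; exact ht)
  have ht1 : H.one - t ≠ 0 := fun h0 => h.one (by rw [sub_eq_zero.mp h0]; exact ht)
  have h3 := H.inv_add H.one (-t) H.one_ne (neg_ne_zero.mpr ht0) (by rwa [← sub_eq_add_neg])
  rw [H.inv_one, H.U_one, H.inv_neg, ← sub_eq_add_neg, ← sub_eq_add_neg] at h3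
  apply h.one
  have h4 := P.add_mem h1 h2
  rw [h3, sub_add_cancel] at h4
  exact h4

/-- `1 + P` consists of units. -/
theorem inv_one_add [Infinite K] (S : H.Scal K) (h2K : (2 : K) ≠ 0) {p : A} (hp : p ∈ P) :
    H.inv (H.one + p) ∉ P := by
  classical
  intro hw'
  set w := H.one + p with hwdef
  have hadd : ∀ c : K, c ≠ 1 → w - c • H.one ∉ P := by
    intro c hc h1
    have h2 := P.sub_mem h1 hp
    have e : w - c • H.one - p = (1 - c) • H.one := by
      rw [sub_smul, one_smul, hwdef]; abel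
    rw [e, P.smul_mem_iff (sub_ne_zero.mpr (Ne.symm hc))] at h2
    exact h.one h2
  have hw : w ∉ P := by
    have := hadd 0 (Ne.symm one_ne_zero)
    rwa [zero_smul, sub_zero] at this
  have hw0 : w ≠ 0 := fun h0 => hw (h0 ▸ P.zero_mem)
  have ht : ∀ c : K, c ≠ 0 → c ≠ 1 → H.inv (w - c • H.one) ∈ P := by
    intro c hc0 hc1
    by_contra h1
    exact h.not_sum S h2K hw hw' (h.un_one.smul S hc0) ⟨hadd c hc1, h1⟩
  -- the unit `y = 1 - c w⁻¹`
  have key : ∀ c : K, c ≠ 0 → c ≠ 1 →
      (-2 : K) • (H.one - H.inv w) + c • (H.inv w - H.U (H.inv w) H.one) ∈ P := by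
    intro c hc0 hc1
    have hcw0 : -(c • H.inv w) ≠ 0 := neg_ne_zero.mpr (smul_ne_zero hc0 (H.inv_ne w hw0))
    have hinv : H.inv (-(c • H.inv w)) = -(c⁻¹ • w) := by
      rw [H.inv_neg, S.inv_smul c _ hc0, H.inv_inv]
    -- it is a unit
    have hy1 : H.one + -(c • H.inv w) ∉ P := fun h1 => h.one (by
      have := P.add_mem h1 (P.smul_mem c hw')
      rwa [neg_add_cancel_right] at this)
    have hy0 : H.one + -(c • H.inv w) ≠ 0 := fun h0 => hy1 (h0 ▸ P.zero_mem)
    have hy2 : H.inv (H.one + -(c • H.inv w)) ∉ P := by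
      have h3 := H.inv_add H.one (-(c • H.inv w)) H.one_ne hcw0 hy0
      rw [H.inv_one, H.U_one, hinv] at h3
      have e : H.one + -(c⁻¹ • w) = -(c⁻¹ • (w - c • H.one)) := by
        rw [smul_sub, smul_smul, inv_mul_cancel₀ hc0, one_smul]; abel
      rw [e, H.inv_neg, S.inv_smul _ _ (inv_ne_zero hc0), inv_inv, sub_neg_eq_add] at h3
      rw [h3]
      intro h4
      apply h.one
      have h5 := P.sub_mem h4 (P.smul_mem c (ht c hc0 hc1))
      rwa [add_sub_cancel_right] at h5
    have h3 := (h.map_mem_iff ⟨hy1, hy2⟩).2 hp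
    -- compute `U_y w` and `U_y 1`
    have f1 := U_shift H H.one hcw0
    rw [H.U_one, hinv, map_neg, S.U_smul] at f1
    have f2 := U_shift H (-(c • H.inv w)) H.one_ne
    rw [H.inv_one, H.U_neg, S.U_smul_left, add_comm (-(c • H.inv w)) H.one] at f2
    have hpw : p = w - H.one := by rw [hwdef]; abel
    rw [hpw, map_sub, f2] at h3
    have f3 : H.U (H.one + -(c • H.inv w)) w =
        w - (c * 2) • H.one + (c * c) • H.inv w := by
      have f4 : c⁻¹ • H.U (H.one + -(c • H.inv w)) w =
          c⁻¹ • w - (H.one + H.one + -(c • H.inv w)) := by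
        rw [← neg_inj, f1]; abel
      have f5 := congrArg (fun z => c • z) f4
      simp only [smul_smul, mul_inv_cancel₀ hc0, one_smul, smul_sub] at f5
      rw [f5]
      module
    rw [f3] at h3
    have h4 := P.sub_mem h3 hp
    rw [hpw] at h4
    have e : w - (c * 2) • H.one + (c * c) • H.inv w -
        ((c * c) • H.U (H.inv w) H.one + (-(c • H.inv w) + -(c • H.inv w) + H.one)) -
        (w - H.one) =
        c • ((-2 : K) • (H.one - H.inv w) + c • (H.inv w - H.U (H.inv w) H.one)) := by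
      module
    rw [e, P.smul_mem_iff hc0] at h4
    exact h4
  obtain ⟨c, hc⟩ := Infinite.exists_notMem_finset ({0, 1} : Finset K)
  obtain ⟨d, hd⟩ := Infinite.exists_notMem_finset ({0, 1, c} : Finset K)
  simp only [Finset.mem_insert, Finset.mem_singleton, not_or] at hc hd
  have k1 := key c hc.1 hc.2
  have k2 := key d hd.1 hd.2.1
  have k3 := P.sub_mem k2 k1
  rw [add_sub_add_left_eq_sub, ← sub_smul, P.smul_mem_iff (sub_ne_zero.mpr hd.2.2)] at k3
  have k4 := P.sub_mem k1 (P.smul_mem c k3)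
  rw [add_sub_cancel_right, P.smul_mem_iff (neg_ne_zero.mpr h2K)] at k4
  apply h.one
  have k5 := P.add_mem k4 hw'
  rwa [sub_add_cancel] at k5

/-- `u + P` consists of units if `u` is a unit. -/
theorem un_add [Infinite K] (S : H.Scal K) (h2K : (2 : K) ≠ 0) {u p : A} (hu : Un H P u)
    (hp : p ∈ P) : Un H P (u + p) := by
  have h1 := (h.iso hu).inv_one_add (iso_scal S hu.ne) h2K hp
  refine ⟨fun h2 => hu.1 (by
    have := P.sub_mem h2 hp
    rwa [add_sub_cancel_right] at this), fun h2 => h1 ?_⟩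
  exact (h.map_mem_iff hu).2 h2

/-- The subspace of `P` and its units. -/
def V [Infinite K] (S : H.Scal K) (h2K : (2 : K) ≠ 0) : Submodule K A where
  carrier := {x | x ∈ P ∨ Un H P x}
  zero_mem' := Or.inl P.zero_mem
  add_mem' := by
    rintro a b (ha | ha) (hb | hb)
    · exact Or.inl (P.add_mem ha hb)
    · right
      rw [add_comm]
      exact h.un_add S h2K hb ha
    · right
      exact h.un_add S h2K ha hb
    · by_cases hab : a + b ∈ P
      · exact Or.inl hab
      right
      refine ⟨hab, fun h1 => ?_⟩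
      exact h.not_sum S h2K hab h1 ha (by rwa [add_sub_cancel_left])
  smul_mem' := by
    rintro t a (ha | ha)
    · exact Or.inl (P.smul_mem t ha)
    · by_cases ht : t = 0
      · left
        rw [ht, zero_smul]
        exact P.zero_mem
      · exact Or.inr (ha.smul S ht)

theorem mem_V [Infinite K] (S : H.Scal K) (h2K : (2 : K) ≠ 0) {x : A} :
    x ∈ h.V S h2K ↔ x ∈ P ∨ Un H P x := Iff.rfl

/-- A nonzero subspace which is stable under its units belongs to a perfect pair. -/
theorem perf [Infinite K] (S : H.Scal K) (h2K : (2 : K) ≠ 0) (h0 : P ≠ ⊥) :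
    Perf H P (h.V S h2K) where
  ne_bot := h0
  ne_top := fun h1 => h.one (h1 ▸ Submodule.mem_top)
  iff := fun y hy => by
    rw [h.mem_V S h2K]
    constructor
    · intro h1
      have h2 := h.inv_notMem S h2K h1 hy
      rintro (h3 | h3)
      · exact h2 h3
      · apply h3.2
        rw [H.inv_inv]
        exact h1
    · intro h1
      by_contra h2
      apply h1
      by_cases h3 : H.inv y ∈ P
      · exact Or.inl h3
      · exact Or.inr ⟨h3, by rw [H.inv_inv]; exact h2⟩

end Stab

end Pool.Agent.HuaGam96
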