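import Mathlib
import Pool.Agent.HuaDom91.Lat
import Pool.Agent.HuaGam96.Stable

/-!
A cover in the lattice of closed subspaces is a perfect pair.
-/

set_option autoImplicit false

namespace Pool.Agent.HuaGam96

open Pool.Agent.HuaTop84 Pool.Agent.HuaVal Pool.Agent.HuaOne84 Pool.Agent.HuaDom91

variable {A : Type} [AddCommGroup A] {K : Type} [Field K] [Module K A] {H : HS A}

/-- The reflection of a subspace in the point `c`. -/
def rf (S : H.Scal K) (V : Submodule K A) (c : A) : Submodule K A := N S (dual H V) (H.inv c)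

theorem mem_rf {S : H.Scal K} {V : Submodule K A} {c x : A} :
    x ∈ rf S V c ↔ H.U (H.inv c) x ∈ dual H V := Iff.rfl

theorem isCl_rf (S : H.Scal K) (V : Submodule K A) {c : A} (hc : c ≠ 0) : IsCl H (rf S V c) :=
  (isCl_dual V).trans S (H.inv_ne c hc)

theorem rf_anti (S : H.Scal K) {V W : Submodule K A} (h : V ≤ W) (c : A) :
    rf S W c ≤ rf S V c := fun _ hx => dual_anti h hx

theorem rf_rf (S : H.Scal K) {V : Submodule K A} (hV : IsCl H V) {c : A} (hc : c ≠ 0) :
    rf S (rf S V c) c = V := by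
  have hic := H.inv_ne c hc
  ext x
  unfold rf
  rw [dual_N S hic, H.inv_inv, mem_N, mem_N, hV, H.U_inv_right c _ hc]

theorem le_rf_iff (S : H.Scal K) {V W : Submodule K A} (hV : IsCl H V) (hW : IsCl H W) {c : A}
    (hc : c ≠ 0) : V ≤ rf S W c ↔ W ≤ rf S V c := by
  constructor
  · intro h
    calc W = rf S (rf S W c) c := (rf_rf S hW hc).symm
      _ ≤ _ := rf_anti S h c
  · intro h
    calc V = rf S (rf S V c) c := (rf_rf S hV hc).symm
      _ ≤ _ := rf_anti S h c

theorem ne_zero_of_notMem {V : Submodule K A} {c : A} (hc : c ∉ V) : c ≠ 0 :=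
  fun h0 => hc (h0 ▸ V.zero_mem)

theorem le_rf (S : H.Scal K) {V : Submodule K A} (hV : IsCl H V) {c : A} (hc : c ∉ V) :
    V ≤ rf S V c := fun _ hx => hV.shrink S hc hx

theorem rf_le (S : H.Scal K) {V : Submodule K A} (hV : IsCl H V) {c : A}
    (hc : H.inv c ∉ dual H V) : rf S V c ≤ V := fun x hx => by
  have hc0 : c ≠ 0 := by
    rintro rfl
    rw [H.inv_zero] at hc
    exact hc (Submodule.zero_mem _)
  have h1 := hV.expand S hc hx
  rwa [lin_apply, H.U_inv_right c _ hc0] at h1

theorem notMem_rf (S : H.Scal K) {V : Submodule K A} {c : A} (hc : H.inv c ∉ dual H V) :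
    c ∉ rf S V c := fun h => by
  rw [mem_rf] at h
  have h1 := H.U_self (H.inv c)
  rw [H.inv_inv] at h1
  rw [h1] at h
  exact hc h

theorem mem_rf_self (S : H.Scal K) {V : Submodule K A} {c : A} (hc : c ∉ V) : c ∈ rf S V c := by
  rw [mem_rf]
  have h1 := H.U_self (H.inv c)
  rw [H.inv_inv] at h1
  rw [h1]
  exact inv_mem_dual hc

/-- `V` and `W` are consecutive in the lattice of closed subspaces. -/
structure Cov (H : HS A) (V W : Submodule K A) : Prop where
  clV : IsCl H V
  clW : IsCl H W
  lt : V < W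
  none : ∀ X, IsCl H X → V ≤ X → X ≤ W → X = V ∨ X = W

namespace Cov

variable {V W : Submodule K A} (h : Cov H V W)

include h

/-- There is a strong element of `W` outside `V`. -/
theorem exists_strong : ∃ c, c ∉ V ∧ H.inv c ∉ dual H W := by
  by_contra hcon
  push Not at hcon
  apply h.lt.not_ge
  have h1 : dual H (dual H W) ≤ V := by
    rw [dual_le_iff]
    intro y hy
    by_contra h2
    apply hy
    have h3 := hcon _ h2
    rwa [H.inv_inv] at h3
  rwa [h.clW] at h1

/-- The reflection in a strong element of `W` outside `V` maps `V` to `W`. -/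
theorem rf_bot (S : H.Scal K) {c : A} (hc : c ∉ V) (hc' : H.inv c ∉ dual H W) :
    rf S V c = W := by
  have hc0 := ne_zero_of_notMem hc
  have h1 : rf S W c ≤ V := by
    have h2 : V ⊔ rf S W c ≤ rf S (V ⊔ rf S W c) c := by
      have hcl : IsCl H (V ⊔ rf S W c) := h.clV.sup (isCl_rf S W hc0)
      apply sup_le
      · rw [le_rf_iff S h.clV hcl hc0]
        exact sup_le (le_rf S h.clV hc) (rf_anti S h.lt.le c)
      · exact rf_anti S (sup_le h.lt.le (rf_le S h.clW hc')) c
    rcases h.none _ (h.clV.sup (isCl_rf S W hc0)) le_sup_left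
      (sup_le h.lt.le (rf_le S h.clW hc')) with h3 | h3
    · rw [← h3]
      exact le_sup_right
    · exfalso
      rw [h3] at h2
      apply notMem_rf S hc'
      apply h2
      have h4 := mem_dual_inv (H := H) hc'
      rwa [h.clW] at h4
  have h2 : rf S V c ≤ W := by
    calc rf S V c ≤ rf S (rf S W c) c := rf_anti S h1 c
      _ = W := rf_rf S h.clW hc0
  rcases h.none _ (isCl_rf S V hc0) (le_rf S h.clV hc) h2 with h3 | h3
  · exact absurd (h3 ▸ mem_rf_self S hc) hc
  · exact h3

/-- The reflection in a strong element of `W` outside `V` maps `W` to `V`. -/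
theorem rf_top (S : H.Scal K) {c : A} (hc : c ∉ V) (hc' : H.inv c ∉ dual H W) :
    rf S W c = V := by
  rw [← h.rf_bot S hc hc', rf_rf S h.clV (ne_zero_of_notMem hc)]

/-- The lower member of a cover is stable under its units, for a suitable unit. -/
theorem stab (S : H.Scal K) {c : A} (hc : c ∉ V) (hc' : H.inv c ∉ dual H W) :
    Stab (iso H c (ne_zero_of_notMem hc)) V where
  one := hc
  st := fun u hu hu' x hx => by
    have hc0 := ne_zero_of_notMem hc
    change H.U c (H.inv u) ∉ V at hu'
    change H.U u (H.U (H.inv c) x) ∈ V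
    have h1 : H.inv u ∉ dual H W := by
      intro h2
      apply hu'
      rw [← h.rf_top S hc hc', mem_rf, H.U_inv_left c _ hc0]
      exact h2
    have h2 : H.U (H.inv c) x ∈ dual H W := by
      rw [← h.rf_top S hc hc'] at hx
      exact hx
    rw [← h.rf_top S hu h1, mem_rf, H.U_inv_left u _ (ne_zero_of_notMem hu)]
    exact h2

/-- A cover in the lattice of closed subspaces is a perfect pair, for a suitable unit. -/
theorem exists_perf [Infinite K] (S : H.Scal K) (h2K : (2 : K) ≠ 0) (h0 : V ≠ ⊥) :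
    ∃ (c : A) (hc : c ≠ 0) (R : Submodule K A), Perf (iso H c hc) V R := by
  obtain ⟨c, hc, hc'⟩ := h.exists_strong
  exact ⟨c, ne_zero_of_notMem hc, _,
    (h.stab S hc hc').perf (iso_scal S (ne_zero_of_notMem hc)) h2K h0⟩

/-- The dual of the lower member of a cover: the pair is perfect. -/
theorem perf [Infinite K] (S : H.Scal K) (h2K : (2 : K) ≠ 0) (h0 : V ≠ ⊥) :
    ∃ R : Submodule K A, Perf H V R := by
  obtain ⟨c, hc, R, hR⟩ := h.exists_perf S h2K h0
  refine ⟨N S R c, hR.ne_bot, hR.ne_top, fun y hy => ?_⟩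
  rw [mem_N]
  exact hR.iff y hy

end Cov

end Pool.Agent.HuaGam96
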